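import Mathlib

set_option autoImplicit false
set_option maxHeartbeats 4000000

namespace Pool.Agent.H773.DG

/-- in a finite `p`-group a proper inclusion of subgroups multiplies the order by at least `p` -/
theorem card_lt {p : ℕ} [Fact p.Prime] {G : Type} [Group G] [Finite G] (hG : IsPGroup p G)
    {H K : Subgroup G} (h : H < K) : p * Nat.card H ≤ Nat.card K := by
  obtain ⟨a, ha⟩ := IsPGroup.iff_card.mp (hG.to_subgroup H)
  obtain ⟨b, hb⟩ := IsPGroup.iff_card.mp (hG.to_subgroup K)
  have hlt : Nat.card H < Nat.card K := by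
    apply lt_of_le_of_ne (Subgroup.card_le_of_le h.le)
    intro he
    exact h.ne (Subgroup.eq_of_le_of_card_ge h.le he.ge)
  rw [ha, hb] at hlt ⊢
  have hab : a < b := (Nat.pow_lt_pow_iff_right (Fact.out : p.Prime).one_lt).mp hlt
  rw [← pow_succ']
  exact Nat.pow_le_pow_right (Fact.out : p.Prime).pos hab

/-- adding elements one at a time -/
theorem add_elems {p : ℕ} [Fact p.Prime] {G : Type} [Group G] [Finite G] (hG : IsPGroup p G) :
    ∀ (j : ℕ) (H : Subgroup G), Nat.card G ≤ p ^ j * Nat.card H →
      ∃ T : Finset G, T.card ≤ j ∧ H ⊔ Subgroup.closure (T : Set G) = ⊤ := by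
  classical
  intro j
  induction j with
  | zero =>
    intro H h
    refine ⟨∅, le_refl _, ?_⟩
    rw [pow_zero, one_mul] at h
    have : H = ⊤ := Subgroup.eq_top_of_le_card H h
    rw [this]; simp
  | succ j ih =>
    intro H h
    by_cases hH : H = ⊤
    · exact ⟨∅, by simp, by rw [hH]; simp⟩
    · obtain ⟨x, -, hx⟩ := SetLike.exists_of_lt (lt_top_iff_ne_top.mpr hH)
      have hlt : H < H ⊔ Subgroup.closure {x} := by
        refine lt_of_le_of_ne le_sup_left ?_
        intro he
        apply hx
        rw [he]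
        exact (le_sup_right : Subgroup.closure {x} ≤ H ⊔ Subgroup.closure {x})
          (Subgroup.subset_closure rfl)
      have h2 := card_lt hG hlt
      obtain ⟨T, hT, hT2⟩ := ih (H ⊔ Subgroup.closure {x}) (by
        calc Nat.card G ≤ p ^ (j + 1) * Nat.card H := h
          _ = p ^ j * (p * Nat.card H) := by rw [pow_succ]; ring
          _ ≤ _ := Nat.mul_le_mul_left _ h2)
      refine ⟨insert x T, (Finset.card_insert_le _ _).trans (by omega), ?_⟩
      rw [Finset.coe_insert, Set.insert_eq, Subgroup.closure_union, ← sup_assoc]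
      exact hT2

/-- maximal subgroups of a finite `p`-group contain all `p`-th powers -/
theorem pow_mem_coatom {p : ℕ} [hp : Fact p.Prime] {G : Type} [Group G] [Finite G]
    (hG : IsPGroup p G) {M : Subgroup G} (hM : IsCoatom M) (x : G) : x ^ p ∈ M := by
  have hnil : Group.IsNilpotent G := hG.isNilpotent
  have hn : M.Normal := Subgroup.NormalizerCondition.normal_of_coatom M
    (Group.normalizerCondition_of_isNilpotent) hM
  obtain ⟨a, ha⟩ := IsPGroup.iff_card.mp hG
  obtain ⟨b, hb⟩ := IsPGroup.iff_card.mp (hG.to_subgroup M)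
  have hlt : Nat.card M < Nat.card G := by
    have h1 := card_lt hG (lt_top_iff_ne_top.mpr hM.1)
    rw [Subgroup.card_top] at h1
    have : 0 < Nat.card M := Nat.card_pos
    have := hp.out.two_le
    nlinarith
  rw [ha, hb] at hlt
  have hab : b < a := (Nat.pow_lt_pow_iff_right hp.out.one_lt).mp hlt
  obtain ⟨K, hK, hMK⟩ := Sylow.exists_subgroup_card_pow_succ (p := p) (n := b)
    (by rw [ha]; exact pow_dvd_pow p hab) hb
  have hKM : M < K := by
    refine lt_of_le_of_ne hMK ?_
    intro he
    rw [← he, hb] at hK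
    have := Nat.pow_lt_pow_right hp.out.one_lt (Nat.lt_add_one b)
    omega
  have hKtop : K = ⊤ := hM.2 K hKM
  have hidx : M.index = p := by
    have h1 := M.card_mul_index
    rw [hKtop, Subgroup.card_top] at hK
    rw [hb, hK, pow_succ] at h1
    exact Nat.eq_of_mul_eq_mul_left (pow_pos hp.out.pos b) h1
  have := M.pow_index_mem x
  rwa [hidx] at this

/-- generation of a finite `p`-group from the size of the subgroup generated by `p`-th powers -/
theorem gen_of_pow {p : ℕ} [hp : Fact p.Prime] {G : Type} [Group G] [Finite G]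
    (hG : IsPGroup p G) (r : ℕ)
    (h : Nat.card G ≤ p ^ r * Nat.card (Subgroup.closure (Set.range fun x : G => x ^ p))) :
    ∃ T : Finset G, T.card ≤ r ∧ Subgroup.closure (T : Set G) = ⊤ := by
  obtain ⟨T, hT, hT2⟩ := add_elems hG r _ h
  refine ⟨T, hT, ?_⟩
  by_contra hne
  obtain ⟨M, hM, hle⟩ := (eq_top_or_exists_le_coatom (Subgroup.closure (T : Set G))).resolve_left hne
  have hN : Subgroup.closure (Set.range fun x : G => x ^ p) ≤ M := by
    rw [Subgroup.closure_le]
    rintro _ ⟨x, rfl⟩
    exact pow_mem_coatom hG hM x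
  exact hM.1 (top_unique (hT2 ▸ sup_le hN hle))

/-- generation from a subgroup -/
theorem gen_of_index {p : ℕ} [hp : Fact p.Prime] {G : Type} [Group G] [Finite G]
    (hG : IsPGroup p G) (C : Subgroup G) (r j : ℕ) (h : Nat.card G ≤ p ^ j * Nat.card C)
    (hC : ∃ T : Finset C, T.card ≤ r ∧ Subgroup.closure (T : Set C) = ⊤) :
    ∃ T : Finset G, T.card ≤ r + j ∧ Subgroup.closure (T : Set G) = ⊤ := by
  classical
  obtain ⟨T, hT, hT2⟩ := hC
  obtain ⟨T', hT', hT2'⟩ := add_elems hG j C h
  refine ⟨T.image (fun x : C => (x : G)) ∪ T',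
    (Finset.card_union_le _ _).trans (add_le_add (Finset.card_image_le.trans hT) hT'), ?_⟩
  rw [Finset.coe_union, Subgroup.closure_union]
  have : Subgroup.closure ((T.image (fun x : C => (x : G)) : Finset G) : Set G) = C := by
    rw [Finset.coe_image]
    have h1 := C.subtype.map_closure (T : Set C)
    rw [hT2, ← MonoidHom.range_eq_map, Subgroup.range_subtype] at h1
    exact h1.symm
  rw [this]; exact hT2'

end Pool.Agent.H773.DG
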