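import Mathlib

set_option autoImplicit false
set_option maxHeartbeats 4000000

namespace Pool.Agent.H773.DG

variable {R : Type} [Ring R]

/-- `z ≡ 1 mod p²` -/
def One2 (p : ℕ) (z : R) : Prop := ∃ t : R, z = 1 + (p ^ 2) • t

theorem One2.one (p : ℕ) : One2 p (1 : R) := ⟨0, by simp⟩

theorem One2.mul {p : ℕ} {z w : R} (hz : One2 p z) (hw : One2 p w) : One2 p (z * w) := by
  obtain ⟨t, rfl⟩ := hz
  obtain ⟨s, rfl⟩ := hw
  refine ⟨s + t * (1 + (p ^ 2) • s), ?_⟩
  rw [add_mul, one_mul, smul_mul_assoc, add_assoc, smul_add]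

theorem One2.pow {p : ℕ} {z : R} (hz : One2 p z) (n : ℕ) : One2 p (z ^ n) := by
  induction n with
  | zero => rw [pow_zero]; exact One2.one p
  | succ n ih => rw [pow_succ]; exact ih.mul hz

/-- the expansion of `x^n - y^n` -/
theorem expand {p : ℕ} {x y : R} (hx : One2 p x) (hy : One2 p y) (n : ℕ) :
    ∃ L : R →+ R, x ^ n - y ^ n = n • (x - y) + (p ^ 2) • L (x - y) := by
  induction n with
  | zero => exact ⟨0, by simp⟩
  | succ n ih =>
    obtain ⟨L, hL⟩ := ih
    obtain ⟨θ, hθ⟩ := hx.pow n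
    obtain ⟨φ, hφ⟩ := hy
    set e := x - y with he
    refine ⟨AddMonoidHom.mulLeft θ + L + n • (AddMonoidHom.mulRight φ) +
      (p ^ 2) • ((AddMonoidHom.mulRight φ).comp L), ?_⟩
    have h1 : x ^ (n + 1) - y ^ (n + 1) = x ^ n * e + (x ^ n - y ^ n) * y := by
      rw [he, pow_succ, pow_succ]; noncomm_ring
    rw [h1, hL, hθ]
    conv_lhs => rw [hφ]
    simp only [AddMonoidHom.add_apply, AddMonoidHom.nsmul_apply, AddMonoidHom.coe_mulLeft,
      AddMonoidHom.coe_mulRight, AddMonoidHom.coe_comp, Function.comp_apply]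
    simp only [add_mul, mul_add, one_mul, mul_one, smul_add, smul_mul_assoc, mul_smul_comm,
      add_smul, one_smul, smul_smul]
    rw [show p ^ 2 * n = n * p ^ 2 by ring]
    abel

theorem iter_smul {p : ℕ} (f : R →+ R) (n : ℕ) (v : R) : p • (f^[n] v) = f^[n] (p • v) := by
  induction n generalizing v with
  | zero => rfl
  | succ n ih => rw [Function.iterate_succ_apply, Function.iterate_succ_apply, ih, map_nsmul]

/-- **Key lemma** -/
theorem key {p : ℕ} {x y : R} (hx : One2 p x) (hy : One2 p y) (N : ℕ)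
    (hN : ∀ r : R, (p ^ N) • r = 0) (h : x ^ p = y ^ p) : p • (x - y) = 0 := by
  obtain ⟨L, hL⟩ := expand hx hy p
  rw [h, sub_self] at hL
  have h1 : p • (x - y) = p • ((-L) (p • (x - y))) := by
    rw [AddMonoidHom.neg_apply, map_nsmul, smul_neg, smul_smul, ← pow_two]
    exact eq_neg_of_add_eq_zero_left hL.symm
  have h2 : ∀ n : ℕ, p • (x - y) = (p ^ n) • (((-L) : R →+ R)^[n] (p • (x - y))) := by
    intro n
    induction n with
    | zero => simp
    | succ n ih =>
      have h3 : (((-L) : R →+ R)^[n + 1] (p • (x - y))) =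
          ((-L) : R →+ R)^[n] ((-L) (p • (x - y))) := Function.iterate_succ_apply _ _ _
      rw [h3, pow_succ, mul_smul]
      have h4 : p • (((-L) : R →+ R)^[n] ((-L) (p • (x - y)))) =
          ((-L) : R →+ R)^[n] (p • ((-L) (p • (x - y)))) := by
        exact iter_smul _ _ _
      rw [h4, ← h1]
      exact ih
  rw [h2 N]
  exact hN _

end Pool.Agent.H773.DG
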