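import Pool.Agent.H43R3.DG.Stmts
import Pool.Agent.H773.DG.Grp
import Pool.Agent.H773.DG.Rng

set_option autoImplicit false
set_option maxHeartbeats 4000000

namespace Pool.Agent.H773.DG

open Pool.Agent.H43R3.DG

theorem inj_bound {X Y R : Type} [AddGroup R] [Finite Y] (F : X → Y) (v : X → R)
    (hv : Function.Injective v) (P : R → Prop) [Finite {r // P r}]
    (h : ∀ x x0, F x = F x0 → P (v x - v x0)) :
    Nat.card X ≤ Nat.card Y * Nat.card {r // P r} := by
  rcases isEmpty_or_nonempty X with hX | hX
  · rw [Nat.card_of_isEmpty]; exact Nat.zero_le _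
  · have hs : ∀ x, F (Function.invFun F (F x)) = F x := fun x => Function.invFun_eq ⟨x, rfl⟩
    rw [← Nat.card_prod]
    apply Nat.card_le_card_of_injective
      (fun x => (F x, (⟨v x - v (Function.invFun F (F x)), h _ _ (hs x).symm⟩ : {r // P r})))
    intro x x' hxx
    simp only [Prod.mk.injEq, Subtype.mk.injEq] at hxx
    obtain ⟨h1, h2⟩ := hxx
    rw [h1] at h2
    exact hv (sub_left_injective h2)

/-- the endomorphism attached to an automorphism -/
def toEnd {A : Type} [CommGroup A] (f : MulAut A) : AddMonoid.End (Additive A) :=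
  MonoidHom.toAdditive f.toMonoidHom

theorem toEnd_apply {A : Type} [CommGroup A] (f : MulAut A) (a : A) :
    toEnd f (Additive.ofMul a) = Additive.ofMul (f a) := rfl

theorem toEnd_mul {A : Type} [CommGroup A] (f g : MulAut A) : toEnd (f * g) = toEnd f * toEnd g := rfl

theorem toEnd_one {A : Type} [CommGroup A] : toEnd (1 : MulAut A) = 1 := rfl

theorem toEnd_inj {A : Type} [CommGroup A] : Function.Injective (toEnd (A := A)) := by
  intro f g h
  ext a
  have := DFunLike.congr_fun h (Additive.ofMul a)
  exact this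

theorem torsion_card {p : ℕ} [hp : Fact p.Prime] {A : Type} [CommGroup A] [Finite A] {k : ℕ}
    (hk : Nat.card {a : A // a ^ p = 1} ≤ p ^ k) (hS : GenBy A k) :
    Nat.card {r : AddMonoid.End (Additive A) // p • r = 0} ≤ p ^ (k * k) := by
  classical
  obtain ⟨S, hSc, hSt⟩ := hS
  have hval : ∀ (r : AddMonoid.End (Additive A)), p • r = 0 → ∀ a : A,
      (r (Additive.ofMul a)).toMul ^ p = 1 := by
    intro r hr a
    have h1 : (p • r) (Additive.ofMul a) = 0 := by rw [hr]; rfl
    have h2 : p • (r (Additive.ofMul a)) = 0 := h1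
    have h3 := congrArg Additive.toMul h2
    exact h3
  have h1 : Nat.card {r : AddMonoid.End (Additive A) // p • r = 0} ≤
      Nat.card (S → {a : A // a ^ p = 1}) := by
    apply Nat.card_le_card_of_injective
      (fun r => fun s : S => (⟨(r.1 (Additive.ofMul s.1)).toMul, hval r.1 r.2 s.1⟩ :
        {a : A // a ^ p = 1}))
    intro r r' hrr
    apply Subtype.ext
    have hag : ∀ s ∈ S, r.1 (Additive.ofMul s) = r'.1 (Additive.ofMul s) := by
      intro s hs
      have := congrFun hrr ⟨s, hs⟩
      simp only [Subtype.mk.injEq] at this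
      exact Additive.toMul.injective this
    have hall : ∀ a : A, a ∈ Subgroup.closure (S : Set A) →
        r.1 (Additive.ofMul a) = r'.1 (Additive.ofMul a) := by
      intro a ha
      induction ha using Subgroup.closure_induction with
      | mem x hx => exact hag x hx
      | one => rw [ofMul_one, map_zero, map_zero]
      | mul x y _ _ hx hy => rw [ofMul_mul, map_add, map_add, hx, hy]
      | inv x _ hx => rw [ofMul_inv, map_neg, map_neg, hx]
    apply AddMonoidHom.ext
    intro a
    exact hall a.toMul (by rw [hSt]; trivial)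
  refine h1.trans ?_
  rw [Nat.card_fun, Nat.card_eq_fintype_card (α := S), Fintype.card_coe, pow_mul]
  calc Nat.card {a : A // a ^ p = 1} ^ S.card ≤ (p ^ k) ^ S.card := Nat.pow_le_pow_left hk _
    _ ≤ (p ^ k) ^ k := Nat.pow_le_pow_right (pow_pos hp.out.pos k) hSc

theorem taskAUT (hAB : TaskABEL) : TaskAUT := by
  classical
  refine ⟨fun k => k * k + 2 * (k * k), ?_⟩
  intro p hp A _ _ hA k hk Q _ _ ρ hρ hQ
  set R := AddMonoid.End (Additive A) with hR
  have hfinR : Finite R := DFunLike.finite _
  have htor := torsion_card hk (hAB p A hA k hk)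
  set φ : Q → R := fun q => toEnd (ρ q) with hφ
  have φmul : ∀ a b, φ (a * b) = φ a * φ b := by
    intro a b; simp only [hφ, map_mul, toEnd_mul]
  have φone : φ 1 = 1 := by simp only [hφ, map_one, toEnd_one]
  have φinj : Function.Injective φ := fun a b h => hρ (toEnd_inj h)
  have φpow : ∀ a (n : ℕ), φ (a ^ n) = φ a ^ n := by
    intro a n
    induction n with
    | zero => rw [pow_zero, pow_zero, φone]
    | succ n ih => rw [pow_succ, pow_succ, φmul, ih]
  -- `p`-power torsion
  obtain ⟨N, hN⟩ := IsPGroup.iff_card.mp hA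
  have hNR : ∀ r : R, (p ^ N) • r = 0 := by
    intro r
    apply AddMonoidHom.ext
    intro a
    have h1 : (p ^ N) • (r a) = 0 := by
      rw [← hN]
      have : Nat.card A = Nat.card (Additive A) := rfl
      rw [this]
      exact card_nsmul_eq_zero'
    exact h1
  -- the subgroup
  let C : Subgroup Q :=
    { carrier := {q | One2 p (φ q)}
      one_mem' := by
        show One2 p (φ 1)
        rw [φone]; exact One2.one p
      mul_mem' := by
        intro a b ha hb
        show One2 p (φ (a * b))
        rw [φmul]; exact One2.mul ha hb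
      inv_mem' := by
        intro a ha
        show One2 p (φ a⁻¹)
        have h1 : a⁻¹ = a ^ (Nat.card Q - 1) := by
          symm
          apply eq_inv_of_mul_eq_one_left
          rw [← pow_succ, Nat.sub_add_cancel Nat.card_pos]
          exact pow_card_eq_one'
        rw [h1, φpow]
        exact One2.pow ha _ }
  have hCmem : ∀ q, q ∈ C ↔ One2 p (φ q) := fun q => Iff.rfl
  -- index of `C`
  let f : R →+ R := nsmulAddMonoidHom (p ^ 2)
  have hf : ∀ r, f r = (p ^ 2) • r := fun r => rfl
  have hidx : Nat.card (Q ⧸ C) ≤ Nat.card (R ⧸ f.range) := by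
    apply Nat.card_le_card_of_injective (fun c => ((φ (Quotient.out c) : R) : R ⧸ f.range))
    intro c c' hcc
    simp only at hcc
    rw [QuotientAddGroup.eq] at hcc
    obtain ⟨t, ht⟩ := hcc
    rw [hf] at ht
    have h1 : (Quotient.out c)⁻¹ * Quotient.out c' ∈ C := by
      rw [hCmem, φmul]
      refine ⟨φ (Quotient.out c)⁻¹ * t, ?_⟩
      have h2 : φ (Quotient.out c') = φ (Quotient.out c) + (p ^ 2) • t := by
        rw [ht]; abel
      rw [h2, mul_add, ← φmul, inv_mul_cancel, φone, mul_smul_comm]
    have h3 : ((Quotient.out c : Q) : Q ⧸ C) = ((Quotient.out c' : Q) : Q ⧸ C) :=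
      QuotientGroup.eq.mpr h1
    rwa [QuotientGroup.out_eq', QuotientGroup.out_eq'] at h3
  have hker : Nat.card (R ⧸ f.range) = Nat.card f.ker := by
    have e1 := AddSubgroup.card_eq_card_quotient_mul_card_addSubgroup f.range
    have e2 := AddSubgroup.card_eq_card_quotient_mul_card_addSubgroup f.ker
    have e3 : Nat.card (R ⧸ f.ker) = Nat.card f.range :=
      Nat.card_congr (QuotientAddGroup.quotientKerEquivRange f).toEquiv
    rw [e3] at e2
    rw [e2, mul_comm] at e1
    exact (Nat.eq_of_mul_eq_mul_right Nat.card_pos e1).symm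
  have hker2 : Nat.card f.ker ≤ Nat.card {r : R // p • r = 0} * Nat.card {r : R // p • r = 0} := by
    apply inj_bound (R := R) (Y := {r : R // p • r = 0})
      (fun x : f.ker => (⟨p • (x : R), by
        have := x.2
        rw [AddMonoidHom.mem_ker, hf] at this
        rw [smul_smul, ← pow_two]; exact this⟩ : {r : R // p • r = 0}))
      (fun x => (x : R)) Subtype.val_injective (fun r => p • r = 0)
    intro x x0 h
    simp only [Subtype.mk.injEq] at h
    have h4 : p • ((x : R) - (x0 : R)) = p • (x : R) - p • (x0 : R) := nsmul_sub _ _ _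
    exact h4.trans (sub_eq_zero.mpr h)
  have hQC : Nat.card Q ≤ p ^ (2 * (k * k)) * Nat.card C := by
    rw [Subgroup.card_eq_card_quotient_mul_card_subgroup C]
    apply Nat.mul_le_mul_right
    calc Nat.card (Q ⧸ C) ≤ Nat.card f.ker := hidx.trans hker.le
      _ ≤ p ^ (k * k) * p ^ (k * k) := hker2.trans (Nat.mul_le_mul htor htor)
      _ = p ^ (2 * (k * k)) := by rw [← pow_add]; congr 1; ring
  -- generation of `C`
  have hCp : IsPGroup p C := hQ.to_subgroup C
  have hCgen : ∃ T : Finset C, T.card ≤ k * k ∧ Subgroup.closure (T : Set C) = ⊤ := by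
    apply gen_of_pow hCp
    have h1 : Nat.card C ≤
        Nat.card (Subgroup.closure (Set.range fun x : C => x ^ p)) *
          Nat.card {r : R // p • r = 0} := by
      apply inj_bound (R := R)
        (fun x : C => (⟨x ^ p, Subgroup.subset_closure ⟨x, rfl⟩⟩ :
          Subgroup.closure (Set.range fun x : C => x ^ p)))
        (fun x => φ (x : Q)) (φinj.comp Subtype.val_injective) (fun r => p • r = 0)
      intro x x0 h
      simp only [Subtype.mk.injEq] at h
      have h2 : ((x : Q)) ^ p = ((x0 : Q)) ^ p := by
        have := congrArg (fun z : C => (z : Q)) h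
        simpa using this
      apply key x.2 x0.2 N hNR
      rw [← φpow, ← φpow, h2]
    rw [mul_comm]
    exact h1.trans (Nat.mul_le_mul_left _ htor)
  exact gen_of_index hQ C (k * k) (2 * (k * k)) hQC hCgen

end Pool.Agent.H773.DG
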